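import Pool.Agent.K6.H83.GL.Joint
import Pool.Agent.N430.AD.Clt
import Pool.Agent.Helper923.PNT

set_option autoImplicit false

/-! The error term for the primitive roots `D m ^ 2` as a process. -/

namespace Pool.Agent.K6.H83.GL

open Finset Filter Topology MeasureTheory ProbabilityTheory
open Pool.Agent.N430.CLT (Dat avg avgP prim PP mem_PP avgP_nonneg' avgP_mul_left avgP_sum avg_mul_left)

/-- restriction of the local conditions to the primes `p ≤ y` -/
noncomputable def cutD (d : Dat) (y : ℕ) : Dat where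
  X := fun p m => if p ≤ y then d.X p m else 0
  per := fun p hp m => by rw [d.per p hp]
  bd := fun p hp m => by
    split_ifs
    · exact d.bd p hp m
    · simp
  mean := fun p hp => by
    by_cases h : p ≤ y
    · simp only [if_pos h]
      exact d.mean p hp
    · simp only [if_neg h]
      simp [avgP]

lemma cutD_S (d : Dat) {y x : ℕ} (h : y ≤ x) (m : ℕ) : (cutD d y).S x m = d.S y m := by
  unfold Dat.S
  change ∑ p ∈ PP x, (if p ≤ y then d.X p m else 0) = _
  rw [← Finset.sum_filter]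
  congr 1
  ext p
  rw [mem_filter, mem_PP, mem_PP]
  constructor
  · rintro ⟨⟨_, h2⟩, h3⟩
    exact ⟨h3, h2⟩
  · rintro ⟨h1, h2⟩
    exact ⟨⟨h1.trans h, h2⟩, h1⟩

lemma cutD_cv (d : Dat) {y z x : ℕ} (hy : y ≤ x) :
    ∑ p ∈ PP x, cv (cutD d y) (cutD d z) p = d.V (min y z) := by
  have e : ∀ p, cv (cutD d y) (cutD d z) p = if p ≤ min y z then d.v p else 0 := by
    intro p
    unfold cv Dat.v
    by_cases h1 : p ≤ y
    · by_cases h2 : p ≤ z
      · rw [if_pos (le_min h1 h2)]
        congr 1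
        funext m
        change (if p ≤ y then d.X p m else 0) * (if p ≤ z then d.X p m else 0) = _
        rw [if_pos h1, if_pos h2, sq]
      · rw [if_neg (fun h => h2 (h.trans (min_le_right _ _)))]
        have : (fun m => (cutD d y).X p m * (cutD d z).X p m) = fun _ => (0 : ℝ) := by
          funext m
          change (if p ≤ y then d.X p m else 0) * (if p ≤ z then d.X p m else 0) = _
          rw [if_neg h2, mul_zero]
        rw [this]
        simp [avgP]
    · rw [if_neg (fun h => h1 (h.trans (min_le_left _ _)))]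
      have : (fun m => (cutD d y).X p m * (cutD d z).X p m) = fun _ => (0 : ℝ) := by
        funext m
        change (if p ≤ y then d.X p m else 0) * (if p ≤ z then d.X p m else 0) = _
        rw [if_neg h1, zero_mul]
      rw [this]
      simp [avgP]
  rw [Finset.sum_congr rfl fun p _ => e p, ← Finset.sum_filter]
  unfold Dat.V
  congr 1
  ext p
  rw [mem_filter, mem_PP, mem_PP]
  constructor
  · rintro ⟨⟨_, h2⟩, h3⟩
    exact ⟨h3, h2⟩
  · rintro ⟨h1, h2⟩
    exact ⟨⟨(h1.trans (min_le_left _ _)).trans hy, h2⟩, h1⟩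

/-- `π(u x) / π(x) → u` -/
lemma pi_ratio {u : ℝ} (hu : 0 < u) : Tendsto (fun x : ℕ =>
    (Nat.primeCounting ⌊u * x⌋₊ : ℝ) / (Nat.primeCounting x : ℝ)) atTop (𝓝 u) := by
  have h1 := Pool.Agent.Helper923.PNT.pi_tendsto
  have hc : Tendsto (fun x : ℕ => (x : ℝ)) atTop atTop := tendsto_natCast_atTop_atTop
  have hcu : Tendsto (fun x : ℕ => u * (x : ℝ)) atTop atTop := hc.const_mul_atTop hu
  have h2 := h1.comp hc
  have h3 := h1.comp hcu
  have h4 := h3.div h2 one_ne_zero
  rw [div_one] at h4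
  -- log (u x) / log x → 1
  have hlog : Tendsto (fun x : ℕ => Real.log x / Real.log (u * x)) atTop (𝓝 1) := by
    have hl : Tendsto (fun x : ℕ => Real.log (x : ℝ)) atTop atTop :=
      Real.tendsto_log_atTop.comp hc
    have h5 : Tendsto (fun x : ℕ => Real.log u / Real.log x + 1) atTop (𝓝 (0 + 1)) :=
      (hl.const_div_atTop (Real.log u)).add_const 1
    have h6 := h5.inv₀ (by norm_num)
    rw [zero_add, inv_one] at h6
    refine h6.congr' ?_
    filter_upwards [eventually_ge_atTop 2] with x hx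
    have hx1 : (2 : ℝ) ≤ x := by exact_mod_cast hx
    have hlx : Real.log x ≠ 0 := (Real.log_pos (by linarith)).ne'
    rw [Real.log_mul hu.ne' (by linarith)]
    rw [div_add_one hlx, inv_div]
  have h7 := (h4.mul hlog).const_mul u
  rw [one_mul, mul_one] at h7
  refine h7.congr' ?_
  filter_upwards [eventually_ge_atTop 2, hcu.eventually_gt_atTop 1] with x hx hux
  have hx1 : (2 : ℝ) ≤ x := by exact_mod_cast hx
  have hx0 : (0 : ℝ) < x := by linarith
  have hlx : Real.log x ≠ 0 := (Real.log_pos (by linarith)).ne'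
  have hlux : Real.log (u * x) ≠ 0 := (Real.log_pos hux).ne'
  have hpi : (Nat.primeCounting x : ℝ) ≠ 0 := by
    exact_mod_cast (Pool.Agent.H730R2.AA.pc_pos x hx).ne'
  simp only [Function.comp, Pi.div_apply, Nat.floor_natCast]
  field_simp

open Pool.Agent.N430.AD (dI vD V_lim vD_pos center qI err_lim dI_S log_small)
open Pool.Agent.H730R2.AA (cnt mainT)

/-- the variance at `u x` -/
lemma V_ratio (D : ℤ) (hD : Squarefree D) (hD4 : D % 4 = 1) (hD1 : D ≠ 1) {u : ℝ} (hu : 0 ≤ u) :
    Tendsto (fun x : ℕ => (dI D).V ⌊u * x⌋₊ / (Nat.primeCounting x : ℝ)) atTop (𝓝 (vD D * u)) := by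
  rcases hu.eq_or_lt with h | h
  · rw [← h, mul_zero]
    have e : ∀ x : ℕ, (dI D).V ⌊(0 : ℝ) * x⌋₊ / (Nat.primeCounting x : ℝ) = 0 := by
      intro x
      rw [zero_mul, Nat.floor_zero]
      have : (dI D).V 0 = 0 := by
        unfold Dat.V
        apply Finset.sum_eq_zero
        intro p hp
        rw [mem_PP] at hp
        have := hp.2.pos
        omega
      rw [this, zero_div]
    simp only [e]
    exact tendsto_const_nhds
  · have hc : Tendsto (fun x : ℕ => (x : ℝ)) atTop atTop := tendsto_natCast_atTop_atTop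
    have hcu : Tendsto (fun x : ℕ => u * (x : ℝ)) atTop atTop := hc.const_mul_atTop h
    have hfl : Tendsto (fun x : ℕ => ⌊u * (x : ℝ)⌋₊) atTop atTop := tendsto_nat_floor_atTop.comp hcu
    have h1 := (V_lim D hD hD4 hD1).comp hfl
    have h2 := h1.mul (pi_ratio h)
    refine h2.congr' ?_
    filter_upwards [hfl.eventually_ge_atTop 2] with x hx
    have hpi : (Nat.primeCounting ⌊u * (x : ℝ)⌋₊ : ℝ) ≠ 0 := by
      exact_mod_cast (Pool.Agent.H730R2.AA.pc_pos _ hx).ne'
    simp only [Function.comp]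
    field_simp

lemma floor_le {u : ℝ} (hu1 : u ≤ 1) (x : ℕ) : ⌊u * (x : ℝ)⌋₊ ≤ x := by
  apply Nat.floor_le_of_le
  have : (0 : ℝ) ≤ x := Nat.cast_nonneg x
  nlinarith

lemma floor_min {u u' : ℝ} (x : ℕ) :
    min ⌊u * (x : ℝ)⌋₊ ⌊u' * (x : ℝ)⌋₊ = ⌊min u u' * (x : ℝ)⌋₊ := by
  have h0 : (0 : ℝ) ≤ x := Nat.cast_nonneg x
  rcases le_total u u' with h | h
  · rw [min_eq_left h, min_eq_left]
    exact Nat.floor_le_floor (mul_le_mul_of_nonneg_right h h0)
  · rw [min_eq_right h, min_eq_right]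
    exact Nat.floor_le_floor (mul_le_mul_of_nonneg_right h h0)

/-- the centring at `u x` -/
lemma center_lim (D : ℤ) (hD : Squarefree D) (hD4 : D % 4 = 1) (hD1 : D ≠ 1) {u : ℝ} (hu : 0 ≤ u)
    (hu1 : u ≤ 1) :
    Tendsto (fun x : ℕ => (∑ p ∈ PP ⌊u * x⌋₊, qI D p - mainT D ⌊u * x⌋₊) /
      √(vD D * (Nat.primeCounting x : ℝ))) atTop (𝓝 0) := by
  have hv := vD_pos D hD hD4 hD1
  have h1 := (err_lim ((D.natAbs + 3 : ℕ) * (1 : ℕ))).mul_const (1 / √(vD D))
  rw [zero_mul] at h1
  apply squeeze_zero_norm' _ h1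
  filter_upwards [eventually_ge_atTop 1] with x hx
  have hx1 : (1 : ℝ) ≤ x := by exact_mod_cast hx
  have hlog : 0 ≤ Real.log x := Real.log_nonneg hx1
  rw [Real.norm_eq_abs, abs_div, abs_of_nonneg (Real.sqrt_nonneg _), Real.sqrt_mul hv.le]
  have h2 : |∑ p ∈ PP ⌊u * (x : ℝ)⌋₊, qI D p - mainT D ⌊u * (x : ℝ)⌋₊| ≤
      ((D.natAbs + 3 : ℕ) * (1 : ℕ) : ℝ) + 2 * (1 + Real.log x) := by
    set y := ⌊u * (x : ℝ)⌋₊ with hy
    have hyx : y ≤ x := floor_le hu1 x
    rcases Nat.eq_zero_or_pos y with h0 | h0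
    · have e1 : ∑ p ∈ PP y, qI D p = 0 := by
        apply Finset.sum_eq_zero
        intro p hp
        rw [mem_PP] at hp
        have := hp.2.pos
        omega
      have e2 : mainT D y = 0 := by
        unfold mainT
        apply Finset.sum_eq_zero
        intro p hp
        unfold Pool.Agent.H730R2.AA.PR at hp
        rw [mem_filter, mem_range] at hp
        have := hp.2.1.two_le
        omega
      rw [e1, e2, sub_zero, abs_zero]
      positivity
    · refine (center D hD hD4 hD1 y h0).trans ?_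
      have : Real.log y ≤ Real.log x := Real.log_le_log (by exact_mod_cast h0) (by exact_mod_cast hyx)
      linarith
  calc |∑ p ∈ PP ⌊u * (x : ℝ)⌋₊, qI D p - mainT D ⌊u * (x : ℝ)⌋₊| /
        (√(vD D) * √(Nat.primeCounting x : ℝ))
      ≤ (((D.natAbs + 3 : ℕ) * (1 : ℕ) : ℝ) + 2 * (1 + Real.log x)) /
        (√(vD D) * √(Nat.primeCounting x : ℝ)) := by gcongr
    _ = _ := by
        rw [div_mul_div_comm, mul_one, mul_comm (√(vD D))]

/-- **the error term is asymptotically a Brownian motion** -/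
theorem brown (D : ℤ) (hD : Squarefree D) (hD4 : D % 4 = 1) (hD1 : D ≠ 1) (N : ℕ → ℕ)
    (hN : ∀ K : ℕ, ∀ᶠ x : ℕ in atTop, x ^ K ≤ N x) {h : ℕ} (u : Fin h → ℝ)
    (hu : ∀ i, 0 ≤ u i ∧ u i ≤ 1) :
    (Matrix.of fun i j => min (u i) (u j) : Matrix (Fin h) (Fin h) ℝ).PosSemidef ∧
    ∀ f : BoundedContinuousFunction (EuclideanSpace ℝ (Fin h)) ℝ,
      Tendsto (fun x : ℕ => avg (N x) (fun m => f (WithLp.toLp 2 (fun i =>
        ((cnt (D * (m : ℤ) ^ 2) ⌊u i * x⌋₊ : ℝ) - mainT D ⌊u i * x⌋₊) /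
          √(vD D * (Nat.primeCounting x : ℝ)))))) atTop
        (𝓝 (∫ z, f z ∂(multivariateGaussian 0
          (Matrix.of fun i j => min (u i) (u j) : Matrix (Fin h) (Fin h) ℝ)))) := by
  have hv := vD_pos D hD hD4 hD1
  have hpi : Tendsto (fun x : ℕ => √(vD D * (Nat.primeCounting x : ℝ))) atTop atTop :=
    Real.tendsto_sqrt_atTop.comp (Pool.Agent.N430.AD.pc_top.const_mul_atTop hv)
  have key := joint (fun i x => cutD (dI D) ⌊u i * x⌋₊) N hN
    (fun _ x => 1 / √(vD D * (Nat.primeCounting x : ℝ)))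
    (fun _ => by
      simp only [one_div]
      exact tendsto_inv_atTop_zero.comp hpi)
    (Matrix.of fun i j => min (u i) (u j)) (fun i j => by
      have h1 := (V_ratio D hD hD4 hD1 (u := min (u i) (u j)) (le_min (hu i).1 (hu j).1)).const_mul
        (1 / vD D)
      have e0 : 1 / vD D * (vD D * min (u i) (u j)) = min (u i) (u j) := by
        field_simp
      rw [e0] at h1
      rw [Matrix.of_apply]
      refine h1.congr fun x => ?_
      rw [cutD_cv (dI D) (floor_le (hu i).2 x), floor_min]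
      have hs : √(vD D * (Nat.primeCounting x : ℝ)) * √(vD D * (Nat.primeCounting x : ℝ)) =
          vD D * (Nat.primeCounting x : ℝ) := Real.mul_self_sqrt (by positivity)
      have h2 : 1 / √(vD D * (Nat.primeCounting x : ℝ)) *
          (1 / √(vD D * (Nat.primeCounting x : ℝ))) =
          1 / (vD D * (Nat.primeCounting x : ℝ)) := by
        rw [div_mul_div_comm, one_mul, hs]
      rw [h2, div_mul_div_comm, one_mul, one_div, inv_mul_eq_div])
    (fun i x => (∑ p ∈ PP ⌊u i * x⌋₊, qI D p - mainT D ⌊u i * x⌋₊) /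
      √(vD D * (Nat.primeCounting x : ℝ)))
    (fun i => center_lim D hD hD4 hD1 (hu i).1 (hu i).2)
  refine ⟨key.1, fun f => ?_⟩
  refine (key.2 f).congr fun x => ?_
  congr 1
  funext m
  congr 2
  funext i
  rw [cutD_S (dI D) (floor_le (hu i).2 x), dI_S]
  ring

end Pool.Agent.K6.H83.GL
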