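import Pool.Agent.K6.H83.GL.Tri

set_option autoImplicit false

/-! The joint central limit theorem for several sums over primes of local conditions. -/

namespace Pool.Agent.K6.H83.GL

open Finset Filter Topology MeasureTheory ProbabilityTheory
open Pool.Agent.N430.CLT (Dat avg avgP prim PP mem_PP avgP_nonneg' avgP_mul_left avgP_sum avg_mul_left)

/-- a linear combination of local conditions, divided by a bound for the coefficients -/
noncomputable def comb {h : ℕ} (d : Fin h → Dat) (w : Fin h → ℝ) (M : ℝ) (hM : 0 < M)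
    (hw : ∑ i, |w i| ≤ M) : Dat where
  X := fun p m => (∑ i, w i * (d i).X p m) / M
  per := fun p hp m => by
    congr 1
    exact Finset.sum_congr rfl fun i _ => by rw [(d i).per p hp]
  bd := fun p hp m => by
    rw [abs_div, abs_of_pos hM, div_le_one hM]
    refine (Finset.abs_sum_le_sum_abs _ _).trans (le_trans ?_ hw)
    refine Finset.sum_le_sum fun i _ => ?_
    rw [abs_mul]
    exact mul_le_of_le_one_right (abs_nonneg _) ((d i).bd p hp m)
  mean := fun p hp => by
    have e : (fun m => (∑ i, w i * (d i).X p m) / M) =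
        fun m => M⁻¹ * ∑ i, w i * (d i).X p m := by
      funext m
      rw [div_eq_inv_mul]
    rw [e, avgP_mul_left, avgP_sum]
    have : ∀ i : Fin h, avgP p (fun m => w i * (d i).X p m) = 0 := by
      intro i
      rw [avgP_mul_left, (d i).mean p hp, mul_zero]
    rw [Finset.sum_eq_zero fun i _ => this i, mul_zero]

lemma comb_S {h : ℕ} (d : Fin h → Dat) (w : Fin h → ℝ) (M : ℝ) (hM : 0 < M)
    (hw : ∑ i, |w i| ≤ M) (x m : ℕ) :
    M * (comb d w M hM hw).S x m = ∑ i, w i * (d i).S x m := by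
  unfold Dat.S
  change M * ∑ p ∈ PP x, (∑ i, w i * (d i).X p m) / M = _
  rw [← Finset.sum_div, mul_div_cancel₀ _ hM.ne', Finset.sum_comm]
  exact Finset.sum_congr rfl fun i _ => by rw [Finset.mul_sum]

/-- the local covariance -/
noncomputable def cv (d e : Dat) (p : ℕ) : ℝ := avgP p (fun m => d.X p m * e.X p m)

lemma comb_V {h : ℕ} (d : Fin h → Dat) (w : Fin h → ℝ) (M : ℝ) (hM : 0 < M)
    (hw : ∑ i, |w i| ≤ M) (x : ℕ) :
    M ^ 2 * (comb d w M hM hw).V x = ∑ i, ∑ j, w i * w j * ∑ p ∈ PP x, cv (d i) (d j) p := by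
  have hv : ∀ p, M ^ 2 * (comb d w M hM hw).v p = ∑ i, ∑ j, w i * w j * cv (d i) (d j) p := by
    intro p
    unfold Dat.v
    rw [← avgP_mul_left]
    have e : (fun m => M ^ 2 * (comb d w M hM hw).X p m ^ 2) =
        fun m => ∑ i, ∑ j, w i * w j * ((d i).X p m * (d j).X p m) := by
      funext m
      change M ^ 2 * ((∑ i, w i * (d i).X p m) / M) ^ 2 = _
      rw [div_pow, mul_div_cancel₀ _ (pow_ne_zero 2 hM.ne'), sq, Finset.sum_mul_sum]
      refine Finset.sum_congr rfl fun i _ => Finset.sum_congr rfl fun j _ => ?_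
      ring
    rw [e, avgP_sum]
    refine Finset.sum_congr rfl fun i _ => ?_
    rw [avgP_sum]
    refine Finset.sum_congr rfl fun j _ => ?_
    rw [avgP_mul_left]
    rfl
  unfold Dat.V
  rw [Finset.mul_sum, Finset.sum_congr rfl fun p _ => hv p, Finset.sum_comm]
  refine Finset.sum_congr rfl fun i _ => ?_
  rw [Finset.sum_comm]
  exact Finset.sum_congr rfl fun j _ => by rw [Finset.mul_sum]

/-- **joint central limit theorem** -/
theorem joint {h : ℕ} (d : Fin h → ℕ → Dat) (N : ℕ → ℕ)
    (hN : ∀ K : ℕ, ∀ᶠ x : ℕ in atTop, x ^ K ≤ N x) (s : Fin h → ℕ → ℝ)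
    (hs : ∀ i, Tendsto (s i) atTop (𝓝 0)) (Γ : Matrix (Fin h) (Fin h) ℝ)
    (hΓ : ∀ i j, Tendsto (fun x => s i x * s j x * ∑ p ∈ PP x, cv (d i x) (d j x) p) atTop
      (𝓝 (Γ i j)))
    (c : Fin h → ℕ → ℝ) (hc : ∀ i, Tendsto (c i) atTop (𝓝 0)) :
    Γ.PosSemidef ∧ ∀ f : BoundedContinuousFunction (EuclideanSpace ℝ (Fin h)) ℝ,
      Tendsto (fun x => avg (N x) (fun m =>
        f (WithLp.toLp 2 (fun i => s i x * (d i x).S x m + c i x)))) atTop
        (𝓝 (∫ z, f z ∂(multivariateGaussian 0 Γ))) := by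
  -- the data of the linear combinations
  have hMpos : ∀ (t : Fin h → ℝ) (x : ℕ), 0 < ∑ i, |t i * s i x| + 1 / ((x : ℝ) + 1) := by
    intro t x
    have h1 : 0 ≤ ∑ i, |t i * s i x| := Finset.sum_nonneg fun i _ => abs_nonneg _
    have h2 : (0 : ℝ) < 1 / ((x : ℝ) + 1) := by positivity
    linarith
  have hMle : ∀ (t : Fin h → ℝ) (x : ℕ),
      ∑ i, |t i * s i x| ≤ ∑ i, |t i * s i x| + 1 / ((x : ℝ) + 1) := by
    intro t x
    have h2 : (0 : ℝ) < 1 / ((x : ℝ) + 1) := by positivity
    linarith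
  let M : (Fin h → ℝ) → ℕ → ℝ := fun t x => ∑ i, |t i * s i x| + 1 / ((x : ℝ) + 1)
  let D : (Fin h → ℝ) → ℕ → Dat := fun t x =>
    comb (fun i => d i x) (fun i => t i * s i x) (M t x) (hMpos t x) (hMle t x)
  have hM0 : ∀ t, Tendsto (M t) atTop (𝓝 0) := by
    intro t
    have h1 : Tendsto (fun x => ∑ i, |t i * s i x|) atTop (𝓝 (∑ _i : Fin h, (0 : ℝ))) := by
      apply tendsto_finsetSum
      intro i _
      have := ((hs i).const_mul (t i)).abs
      simpa using this
    have h2 : Tendsto (fun x : ℕ => 1 / ((x : ℝ) + 1)) atTop (𝓝 0) :=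
      tendsto_one_div_add_atTop_nhds_zero_nat
    have h3 := h1.add h2
    rw [Finset.sum_const_zero, add_zero] at h3
    exact h3
  have hV : ∀ t, Tendsto (fun x => M t x ^ 2 * (D t x).V x) atTop
      (𝓝 (∑ i, ∑ j, t i * t j * Γ i j)) := by
    intro t
    have e : ∀ x, M t x ^ 2 * (D t x).V x =
        ∑ i, ∑ j, t i * t j * (s i x * s j x * ∑ p ∈ PP x, cv (d i x) (d j x) p) := by
      intro x
      have := comb_V (fun i => d i x) (fun i => t i * s i x) (M t x) (hMpos t x) (hMle t x) x
      refine this.trans ?_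
      refine Finset.sum_congr rfl fun i _ => Finset.sum_congr rfl fun j _ => ?_
      ring
    simp only [e]
    apply tendsto_finsetSum
    intro i _
    apply tendsto_finsetSum
    intro j _
    exact (hΓ i j).const_mul _
  -- the limit is positive semidefinite
  have hquad : ∀ t : Fin h → ℝ, t ⬝ᵥ Matrix.mulVec Γ t = ∑ i, ∑ j, t i * t j * Γ i j := by
    intro t
    simp only [dotProduct, Matrix.mulVec]
    refine Finset.sum_congr rfl fun i _ => ?_
    rw [Finset.mul_sum]
    exact Finset.sum_congr rfl fun j _ => by ring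
  have hsymm : ∀ i j, Γ i j = Γ j i := by
    intro i j
    refine tendsto_nhds_unique (hΓ i j) ((hΓ j i).congr fun x => ?_)
    rw [mul_comm (s j x) (s i x)]
    congr 1
    refine Finset.sum_congr rfl fun p _ => ?_
    unfold cv
    congr 1
    funext m
    ring
  have hpsd : Γ.PosSemidef := by
    apply Matrix.PosSemidef.of_dotProduct_mulVec_nonneg
    · ext i j
      rw [Matrix.conjTranspose_apply]
      simpa using hsymm j i
    · intro t
      have : star t = t := by
        ext i; simp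
      rw [this, hquad]
      refine ge_of_tendsto' (hV t) fun x => ?_
      exact mul_nonneg (sq_nonneg _) ((D t x).V_nonneg x)
  refine ⟨hpsd, fun f => ?_⟩
  have hN1 : ∀ᶠ x : ℕ in atTop, N x ≠ 0 := by
    filter_upwards [hN 0] with x hx
    rw [pow_zero] at hx
    omega
  refine weak_of_char N hN1
    (fun x m => WithLp.toLp 2 (fun i => s i x * (d i x).S x m + c i x))
    (multivariateGaussian 0 Γ) (fun t => ?_) f
  rw [charFun_multivariateGaussian hpsd]
  have h1 := char_tri (D t) N hN (M t) (hM0 t) _ (hV t)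
  -- the error
  have h2 : Tendsto (fun x => Complex.exp (((∑ i, t i * c i x : ℝ) : ℂ) * Complex.I)) atTop
      (𝓝 1) := by
    have h3 : Tendsto (fun x => ∑ i, t i * c i x) atTop (𝓝 0) := by
      have : Tendsto (fun x => ∑ i, t i * c i x) atTop (𝓝 (∑ _i : Fin h, (0 : ℝ))) := by
        apply tendsto_finsetSum
        intro i _
        simpa using (hc i).const_mul (t i)
      simpa using this
    have h4 := ((Complex.continuous_ofReal.tendsto _).comp h3).mul_const Complex.I
    have h5 := (Complex.continuous_exp.tendsto _).comp h4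
    simpa [Function.comp_def] using h5
  have h3 := h1.mul h2
  rw [mul_one] at h3
  have e1 : Complex.exp (-((((∑ i, ∑ j, t i * t j * Γ i j) / 2 : ℝ)) : ℂ)) =
      Complex.exp (((inner ℝ t (0 : EuclideanSpace ℝ (Fin h)) : ℝ) : ℂ) * Complex.I -
        ((t : Fin h → ℝ) ⬝ᵥ Matrix.mulVec Γ (t : Fin h → ℝ) : ℝ) / 2) := by
    rw [hquad, inner_zero_right]
    congr 1
    push_cast
    ring
  rw [e1] at h3
  refine h3.congr fun x => ?_
  rw [mul_comm, ← avg_mul_left]
  congr 1
  funext m
  rw [← Complex.exp_add]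
  congr 1
  rw [← add_mul]
  congr 1
  have e2 := comb_S (fun i => d i x) (fun i => t i * s i x) (M t x) (hMpos t x) (hMle t x) x m
  change (((∑ i, t i * c i x : ℝ)) : ℂ) + ((M t x * (D t x).S x m : ℝ) : ℂ) = _
  rw [show M t x * (D t x).S x m = ∑ i, t i * s i x * (d i x).S x m from e2, ← Complex.ofReal_add,
    ← Finset.sum_add_distrib]
  congr 1
  rw [PiLp.inner_apply]
  refine Finset.sum_congr rfl fun i _ => ?_
  simp only [RCLike.inner_apply, conj_trivial]
  ring

end Pool.Agent.K6.H83.GL
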