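import Pool.Agent.K6.H83.GL.Joint

set_option autoImplicit false

/-! The joint Gaussian law for the numbers of primes in disjoint sets satisfying local conditions. -/

namespace Pool.Agent.K6.H83.GL

open Finset Filter Topology MeasureTheory ProbabilityTheory
open Pool.Agent.N430.CLT (Dat avg avgP prim PP mem_PP avgP_nonneg' avgP_mul_left avgP_sum avg_mul_left)

open Classical in
/-- the proportion of the classes modulo `p` with the property `T` -/
noncomputable def rho (p : ℕ) (T : ZMod p → Prop) : ℝ :=
  avgP p (fun m => if T (m : ZMod p) then (1 : ℝ) else 0)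

lemma rho_nonneg (p : ℕ) (T : ZMod p → Prop) : 0 ≤ rho p T := by
  unfold rho avgP
  refine div_nonneg (Finset.sum_nonneg fun m _ => ?_) (Nat.cast_nonneg _)
  split_ifs <;> norm_num

lemma rho_le_one (p : ℕ) (T : ZMod p → Prop) : rho p T ≤ 1 := by
  classical
  unfold rho avgP
  rcases Nat.eq_zero_or_pos p with rfl | hp
  · simp
  rw [div_le_one (by exact_mod_cast hp)]
  calc ∑ m ∈ range p, (if T (m : ZMod p) then (1 : ℝ) else 0) ≤ ∑ _m ∈ range p, (1 : ℝ) := by
        refine Finset.sum_le_sum fun m _ => ?_
        split_ifs <;> norm_num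
    _ = p := by simp

open Classical in
/-- the local conditions `T` at the primes of `A`, with mean zero -/
noncomputable def setD (A : Set ℕ) (T : (p : ℕ) → ZMod p → Prop) : Dat where
  X := fun p m => if p ∈ A then (if T p (m : ZMod p) then (1 : ℝ) else 0) - rho p (T p) else 0
  per := fun p hp m => by
    have : ((m + p : ℕ) : ZMod p) = (m : ZMod p) := by push_cast; simp
    rw [this]
  bd := fun p hp m => by
    have h1 := rho_nonneg p (T p)
    have h2 := rho_le_one p (T p)
    split_ifs
    · rw [abs_le]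
      constructor <;> linarith
    · rw [abs_le]
      constructor <;> linarith
    · simp
  mean := fun p hp => by
    have hp0 : (p : ℝ) ≠ 0 := by exact_mod_cast hp.ne_zero
    by_cases h : p ∈ A
    · simp only [if_pos h]
      unfold rho avgP
      rw [Finset.sum_sub_distrib, Finset.sum_const, card_range, nsmul_eq_mul]
      field_simp
      ring
    · simp only [if_neg h]
      simp [avgP]

open Classical in
lemma setD_S (A : Set ℕ) (T : (p : ℕ) → ZMod p → Prop) (x m : ℕ) :
    (setD A T).S x m =
      (#((PP x).filter (fun p => p ∈ A ∧ T p (m : ZMod p))) : ℝ) -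
        ∑ p ∈ (PP x).filter (fun p => p ∈ A), rho p (T p) := by
  unfold Dat.S
  change ∑ p ∈ PP x, (if p ∈ A then (if T p (m : ZMod p) then (1 : ℝ) else 0) - rho p (T p) else 0) = _
  rw [← Finset.sum_filter, Finset.sum_sub_distrib]
  congr 1
  rw [← Finset.sum_filter, Finset.filter_filter, Finset.sum_const, nsmul_eq_mul, mul_one]

lemma cv_self (A : Set ℕ) (T : (p : ℕ) → ZMod p → Prop) {p : ℕ} (hp : p.Prime) (hA : p ∈ A) :
    cv (setD A T) (setD A T) p = rho p (T p) * (1 - rho p (T p)) := by
  classical
  have hp0 : (p : ℝ) ≠ 0 := by exact_mod_cast hp.ne_zero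
  set r := rho p (T p) with hr
  have e : (fun m => (setD A T).X p m * (setD A T).X p m) =
      fun m : ℕ => (1 - 2 * r) * (if T p (m : ZMod p) then (1 : ℝ) else 0) + r ^ 2 := by
    funext m
    change (if p ∈ A then (if T p (m : ZMod p) then (1 : ℝ) else 0) - rho p (T p) else 0) *
      (if p ∈ A then (if T p (m : ZMod p) then (1 : ℝ) else 0) - rho p (T p) else 0) = _
    rw [if_pos hA, ← hr]
    split_ifs <;> ring
  unfold cv
  rw [e]
  have h1 : avgP p (fun m => if T p (m : ZMod p) then (1 : ℝ) else 0) = r := rfl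
  unfold avgP at h1 ⊢
  rw [Finset.sum_add_distrib, ← Finset.mul_sum, Finset.sum_const, card_range, nsmul_eq_mul, add_div,
    mul_div_assoc, h1]
  field_simp
  ring

lemma cv_zero (A B : Set ℕ) (T U : (p : ℕ) → ZMod p → Prop) {p : ℕ} (h : p ∉ A ∨ p ∉ B) :
    cv (setD A T) (setD B U) p = 0 := by
  classical
  have e : (fun m => (setD A T).X p m * (setD B U).X p m) = fun _ => (0 : ℝ) := by
    funext m
    change (if p ∈ A then (if T p (m : ZMod p) then (1 : ℝ) else 0) - rho p (T p) else 0) *
      (if p ∈ B then (if U p (m : ZMod p) then (1 : ℝ) else 0) - rho p (U p) else 0) = _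
    rcases h with h | h
    · rw [if_neg h, zero_mul]
    · rw [if_neg h, mul_zero]
  unfold cv
  rw [e]
  simp [avgP]

open Classical in
/-- the mean of the number of primes -/
noncomputable def mE (A : Set ℕ) (T : (p : ℕ) → ZMod p → Prop) (x : ℕ) : ℝ :=
  ∑ p ∈ (PP x).filter (fun p => p ∈ A), rho p (T p)

open Classical in
/-- the variance of the number of primes -/
noncomputable def mV (A : Set ℕ) (T : (p : ℕ) → ZMod p → Prop) (x : ℕ) : ℝ :=
  ∑ p ∈ (PP x).filter (fun p => p ∈ A), rho p (T p) * (1 - rho p (T p))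

lemma sum_cv (A : Set ℕ) (T : (p : ℕ) → ZMod p → Prop) (x : ℕ) :
    ∑ p ∈ PP x, cv (setD A T) (setD A T) p = mV A T x := by
  classical
  unfold mV
  rw [Finset.sum_filter]
  refine Finset.sum_congr rfl fun p hp => ?_
  by_cases h : p ∈ A
  · rw [if_pos h, cv_self A T (mem_PP.1 hp).2 h]
  · rw [if_neg h, cv_zero A A T T (Or.inl h)]

open Classical in
/-- **joint central limit theorem for disjoint sets of primes** -/
theorem sets_clt {h : ℕ} (A : Fin h → Set ℕ) (T : Fin h → (p : ℕ) → ZMod p → Prop)
    (hA : ∀ i j, i ≠ j → Disjoint (A i) (A j))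
    (hV : ∀ i, Tendsto (mV (A i) (T i)) atTop atTop) (N : ℕ → ℕ)
    (hN : ∀ K : ℕ, ∀ᶠ x : ℕ in atTop, x ^ K ≤ N x)
    (f : BoundedContinuousFunction (EuclideanSpace ℝ (Fin h)) ℝ) :
    Tendsto (fun x => avg (N x) (fun m => f (WithLp.toLp 2 (fun i =>
        ((#((PP x).filter (fun p => p ∈ A i ∧ T i p (m : ZMod p))) : ℝ) - mE (A i) (T i) x) /
          √(mV (A i) (T i) x))))) atTop
      (𝓝 (∫ z, f z ∂(multivariateGaussian 0 (1 : Matrix (Fin h) (Fin h) ℝ)))) := by
  have key := joint (fun i _ => setD (A i) (T i)) N hN (fun i x => 1 / √(mV (A i) (T i) x))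
    (fun i => by
      simp only [one_div]
      exact tendsto_inv_atTop_zero.comp (Real.tendsto_sqrt_atTop.comp (hV i)))
    (1 : Matrix (Fin h) (Fin h) ℝ) (fun i j => by
      by_cases hij : i = j
      · subst hij
        rw [Matrix.one_apply_eq]
        refine Tendsto.congr' ?_ tendsto_const_nhds
        filter_upwards [(hV i).eventually_gt_atTop 0] with x hx
        rw [sum_cv]
        have hs := Real.mul_self_sqrt hx.le
        have hne : √(mV (A i) (T i) x) ≠ 0 := (Real.sqrt_pos.2 hx).ne'
        rw [div_mul_div_comm, one_mul, hs, one_div, inv_mul_cancel₀ hx.ne']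
      · rw [Matrix.one_apply_ne hij]
        refine tendsto_const_nhds.congr fun x => ?_
        rw [Finset.sum_eq_zero, mul_zero]
        intro p _
        apply cv_zero
        by_contra hc
        push Not at hc
        exact Set.disjoint_left.1 (hA i j hij) hc.1 hc.2)
    (fun _ _ => 0) (fun _ => tendsto_const_nhds)
  refine (key.2 f).congr fun x => ?_
  congr 1
  funext m
  congr 2
  funext i
  rw [setD_S, add_zero, one_div, inv_mul_eq_div]
  rfl

end Pool.Agent.K6.H83.GL
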