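import Pool.Agent.K6.H83.GL.Joint

set_option autoImplicit false

/-! Weak limits are stable under uniformly small perturbations. -/

namespace Pool.Agent.K6.H83.GL

open Finset Filter Topology MeasureTheory ProbabilityTheory
open Pool.Agent.N430.CLT (Dat avg avgP prim PP mem_PP avgP_nonneg' avgP_mul_left avgP_sum avg_mul_left)

lemma exp_sub_le (a b : ℝ) :
    ‖Complex.exp ((a : ℂ) * Complex.I) - Complex.exp ((b : ℂ) * Complex.I)‖ ≤ |a - b| := by
  have e : Complex.exp ((a : ℂ) * Complex.I) - Complex.exp ((b : ℂ) * Complex.I) =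
      Complex.exp ((b : ℂ) * Complex.I) * (Complex.exp (Complex.I * ((a - b : ℝ) : ℂ)) - 1) := by
    rw [mul_sub, mul_one, ← Complex.exp_add]
    congr 2
    push_cast
    ring
  rw [e, norm_mul, Complex.norm_exp_ofReal_mul_I, one_mul]
  exact Real.norm_exp_I_mul_ofReal_sub_one_le

theorem weak_stable {h : ℕ} (N : ℕ → ℕ) (hN : ∀ᶠ x in atTop, N x ≠ 0)
    (Y Z : ℕ → ℕ → EuclideanSpace ℝ (Fin h))
    (ν : Measure (EuclideanSpace ℝ (Fin h))) [IsProbabilityMeasure ν]
    (hY : ∀ f : BoundedContinuousFunction (EuclideanSpace ℝ (Fin h)) ℝ,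
      Tendsto (fun x => avg (N x) (fun m => f (Y x m))) atTop (𝓝 (∫ z, f z ∂ν)))
    (b : ℕ → ℝ) (hb : Tendsto b atTop (𝓝 0))
    (hZ : ∀ x m, 1 ≤ m → ‖Z x m - Y x m‖ ≤ b x)
    (f : BoundedContinuousFunction (EuclideanSpace ℝ (Fin h)) ℝ) :
    Tendsto (fun x => avg (N x) (fun m => f (Z x m))) atTop (𝓝 (∫ z, f z ∂ν)) := by
  refine weak_of_char N hN Z ν (fun t => ?_) f
  -- the characteristic functions of `Y`
  have h1 : Tendsto (fun x => avg (N x)
      (fun m => Complex.exp ((inner ℝ (Y x m) t : ℝ) * Complex.I))) atTop (𝓝 (charFun ν t)) := by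
    let μ : ℕ → ProbabilityMeasure (EuclideanSpace ℝ (Fin h)) := fun x =>
      ⟨lawE (N x) (Y x), inferInstance⟩
    let ν' : ProbabilityMeasure (EuclideanSpace ℝ (Fin h)) := ⟨ν, inferInstance⟩
    have h2 : Tendsto μ atTop (𝓝 ν') := by
      rw [ProbabilityMeasure.tendsto_iff_forall_integral_tendsto]
      intro g
      refine (hY g).congr' ?_
      filter_upwards [hN] with x hx
      exact (integral_lawE hx (Y x) g g.continuous).symm
    have h3 := ProbabilityMeasure.tendsto_iff_tendsto_charFun.1 h2 t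
    refine h3.congr' ?_
    filter_upwards [hN] with x hx
    exact charFun_lawE hx (Y x) t
  have h2 : Tendsto (fun x => avg (N x)
      (fun m => Complex.exp ((inner ℝ (Z x m) t : ℝ) * Complex.I)) - avg (N x)
      (fun m => Complex.exp ((inner ℝ (Y x m) t : ℝ) * Complex.I))) atTop (𝓝 0) := by
    have h3 : Tendsto (fun x => b x * ‖t‖) atTop (𝓝 0) := by
      simpa using hb.mul_const ‖t‖
    refine squeeze_zero_norm' ?_ h3
    filter_upwards [hN] with x hx
    have hx0 : (0 : ℝ) < N x := by exact_mod_cast Nat.pos_of_ne_zero hx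
    unfold avg
    rw [← sub_div, ← Finset.sum_sub_distrib, norm_div]
    have hn : ‖((N x : ℕ) : ℂ)‖ = N x := by simp
    rw [hn, div_le_iff₀ hx0]
    calc ‖∑ m ∈ Icc 1 (N x), (Complex.exp ((inner ℝ (Z x m) t : ℝ) * Complex.I) -
          Complex.exp ((inner ℝ (Y x m) t : ℝ) * Complex.I))‖
        ≤ ∑ m ∈ Icc 1 (N x), b x * ‖t‖ := by
          refine (norm_sum_le _ _).trans (Finset.sum_le_sum fun m hm => ?_)
          refine (exp_sub_le _ _).trans ?_
          rw [← inner_sub_left]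
          refine (abs_real_inner_le_norm _ _).trans ?_
          exact mul_le_mul_of_nonneg_right (hZ x m (Finset.mem_Icc.1 hm).1) (norm_nonneg _)
      _ = b x * ‖t‖ * N x := by
          rw [Finset.sum_const, Nat.card_Icc, Nat.add_sub_cancel, nsmul_eq_mul, mul_comm]
  have h3 := h2.add h1
  rw [zero_add] at h3
  refine h3.congr fun x => ?_
  ring

/-- **the joint central limit theorem with small errors** -/
theorem joint_stable {h : ℕ} (d : Fin h → ℕ → Dat) (N : ℕ → ℕ)
    (hN : ∀ K : ℕ, ∀ᶠ x : ℕ in atTop, x ^ K ≤ N x) (s : Fin h → ℕ → ℝ)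
    (hs : ∀ i, Tendsto (s i) atTop (𝓝 0)) (Γ : Matrix (Fin h) (Fin h) ℝ)
    (hΓ : ∀ i j, Tendsto (fun x => s i x * s j x * ∑ p ∈ PP x, cv (d i x) (d j x) p) atTop
      (𝓝 (Γ i j)))
    (Z : ℕ → ℕ → Fin h → ℝ) (b : Fin h → ℕ → ℝ) (hb : ∀ i, Tendsto (b i) atTop (𝓝 0))
    (hZ : ∀ x m i, 1 ≤ m → |Z x m i - s i x * (d i x).S x m| ≤ b i x)
    (f : BoundedContinuousFunction (EuclideanSpace ℝ (Fin h)) ℝ) :
    Tendsto (fun x => avg (N x) (fun m => f (WithLp.toLp 2 (Z x m)))) atTop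
        (𝓝 (∫ z, f z ∂(multivariateGaussian 0 Γ))) := by
  have key := joint d N hN s hs Γ hΓ (fun _ _ => 0) (fun _ => tendsto_const_nhds)
  have hN1 : ∀ᶠ x : ℕ in atTop, N x ≠ 0 := by
    filter_upwards [hN 0] with x hx
    rw [pow_zero] at hx
    omega
  have hbs : Tendsto (fun x => ∑ i, b i x) atTop (𝓝 0) := by
    have : Tendsto (fun x => ∑ i, b i x) atTop (𝓝 (∑ _i : Fin h, (0 : ℝ))) :=
      tendsto_finsetSum _ fun i _ => hb i
    simpa using this
  refine weak_stable N hN1 _ (fun x m => WithLp.toLp 2 (Z x m)) (multivariateGaussian 0 Γ) key.2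
    (fun x => ∑ i, b i x) hbs (fun x m hm => ?_) f
  rw [← WithLp.toLp_sub]
  refine (EuclideanSpace.norm_eq _).trans_le ?_
  have hb0 : ∀ i, 0 ≤ b i x := fun i => (abs_nonneg _).trans (hZ x m i hm)
  apply Real.sqrt_le_iff.2
  refine ⟨Finset.sum_nonneg fun i _ => hb0 i, ?_⟩
  calc ∑ i, ‖(WithLp.toLp 2 (Z x m - fun i => s i x * (d i x).S x m + 0) :
          EuclideanSpace ℝ (Fin h)).ofLp i‖ ^ 2 ≤ ∑ i, (b i x) ^ 2 := by
        refine Finset.sum_le_sum fun i _ => ?_
        apply pow_le_pow_left₀ (norm_nonneg _)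
        have := hZ x m i hm
        simpa using this
    _ ≤ (∑ i, b i x) ^ 2 := by
        exact Finset.sum_sq_le_sq_sum_of_nonneg fun i _ => hb0 i

end Pool.Agent.K6.H83.GL
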