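import Pool.Agent.N430.CLT.Slutsky

set_option autoImplicit false

/-! Triangular arrays of local conditions: convergence of the characteristic functions, and weak
convergence in Euclidean space. -/

namespace Pool.Agent.K6.H83.GL

open Finset Filter Topology MeasureTheory ProbabilityTheory
open Pool.Agent.N430.CLT (Dat avg avgP prim compare char_periodic abs_moment avgP_nonneg')

/-- convergence of the characteristic functions, triangular version -/
theorem char_tri (d : ℕ → Dat) (N : ℕ → ℕ) (hN : ∀ K : ℕ, ∀ᶠ x : ℕ in atTop, x ^ K ≤ N x)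
    (y : ℕ → ℝ) (hy : Tendsto y atTop (𝓝 0)) (s : ℝ)
    (hV : Tendsto (fun x => y x ^ 2 * (d x).V x) atTop (𝓝 s)) :
    Tendsto (fun x => avg (N x) (fun m => Complex.exp ((y x * (d x).S x m : ℝ) * Complex.I)))
      atTop (𝓝 (Complex.exp (-((s / 2 : ℝ) : ℂ)))) := by
  have hexp : Tendsto (fun x => Complex.exp (-((y x ^ 2 * (d x).V x / 2 : ℝ) : ℂ))) atTop
      (𝓝 (Complex.exp (-((s / 2 : ℝ) : ℂ)))) := by
    apply (Complex.continuous_exp.tendsto _).comp
    apply Filter.Tendsto.neg
    exact (Complex.continuous_ofReal.tendsto _).comp (hV.div_const 2)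
  have hdiff : Tendsto (fun x => avg (N x) (fun m => Complex.exp ((y x * (d x).S x m : ℝ) * Complex.I)) -
      Complex.exp (-((y x ^ 2 * (d x).V x / 2 : ℝ) : ℂ))) atTop (𝓝 0) := by
    rw [Metric.tendsto_atTop]
    intro ε hε
    set s' : ℝ := |s| + 1 with hs'
    have hs1 : 1 ≤ s' := by have := abs_nonneg s; linarith
    have hK0 : Tendsto (fun k : ℕ => 4 * Real.exp (4 * s') * (1 / 2 : ℝ) ^ k) atTop (𝓝 0) := by
      have := tendsto_pow_atTop_nhds_zero_of_lt_one (r := (1 / 2 : ℝ)) (by norm_num) (by norm_num)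
      simpa using this.const_mul (4 * Real.exp (4 * s'))
    obtain ⟨k, hk⟩ := (hK0.eventually (gt_mem_nhds (show (0 : ℝ) < ε / 4 by positivity))).exists
    set K := 2 * k with hK
    have hKe : Even K := even_two_mul k
    have hk2 : 4 * Real.exp (4 * s') * (1 / 2 : ℝ) ^ K < ε / 4 := by
      refine lt_of_le_of_lt ?_ hk
      apply mul_le_mul_of_nonneg_left _ (by positivity)
      exact pow_le_pow_of_le_one (by norm_num) (by norm_num) (by omega)
    have habs : Tendsto (fun x => |y x|) atTop (𝓝 0) := by simpa using hy.abs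
    have h1 : ∀ᶠ x : ℕ in atTop, |y x| < 1 / 2 := habs.eventually (gt_mem_nhds (by norm_num))
    have h2 : Tendsto (fun x => 2 * |y x| * (y x ^ 2 * (d x).V x)) atTop (𝓝 0) := by
      have := (habs.const_mul 2).mul hV
      simpa using this
    have h3 : Tendsto (fun x : ℕ => 2 * ((K : ℝ) + 1) / (x : ℝ)) atTop (𝓝 0) :=
      tendsto_const_nhds.div_atTop tendsto_natCast_atTop_atTop
    have h4 : ∀ᶠ x : ℕ in atTop, y x ^ 2 * (d x).V x < s' :=
      hV.eventually (gt_mem_nhds (by have := le_abs_self s; linarith))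
    have hev := ((h1.and (h2.eventually (gt_mem_nhds (show (0 : ℝ) < ε / 4 by positivity)))).and
      ((h3.eventually (gt_mem_nhds (show (0 : ℝ) < ε / 4 by positivity))).and
      ((hN (2 * K + 1)).and ((eventually_ge_atTop 1).and h4))))
    obtain ⟨x₀, hx₀⟩ := eventually_atTop.1 hev
    refine ⟨x₀, fun x hx => ?_⟩
    obtain ⟨⟨g1, g2⟩, g3, g4, g5, g6⟩ := hx₀ x hx
    have hx1 : (1 : ℝ) ≤ x := by exact_mod_cast g5
    have hN0 : 0 < N x := lt_of_lt_of_le (Nat.pow_pos g5) g4
    have hV0 := (d x).V_nonneg x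
    set t := y x with ht
    have hy1 : |t| ≤ 1 := by linarith
    have a1 := compare (d x) x (N x) K g5 hN0 hKe hy1
    have a2 := char_periodic (d x) x hy1
    have a3 := abs_moment (d x) x K (s := 2 * |t|) (by positivity) (by linarith)
    have e2 : (2 * |t|) ^ 2 * (d x).V x = 4 * (t ^ 2 * (d x).V x) := by
      rw [mul_pow, sq_abs]
      ring
    rw [e2] at a3
    have h7 : 0 ≤ avgP (prim x) (fun m => |(d x).S x m| ^ K) := avgP_nonneg' _ fun m => by positivity
    have a4 : 2 * (|t| ^ K / (K.factorial : ℝ) * avgP (prim x) (fun m => |(d x).S x m| ^ K)) ≤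
        4 * Real.exp (4 * s') * (1 / 2 : ℝ) ^ K := by
      have h6 : |t| ^ K = (1 / 2 : ℝ) ^ K * (2 * |t|) ^ K := by
        rw [← mul_pow]
        congr 1
        ring
      have h8 : (0 : ℝ) < K.factorial := by exact_mod_cast K.factorial_pos
      calc 2 * (|t| ^ K / (K.factorial : ℝ) * avgP (prim x) (fun m => |(d x).S x m| ^ K))
          = 2 * (1 / 2 : ℝ) ^ K * ((2 * |t|) ^ K / (K.factorial : ℝ) *
            avgP (prim x) (fun m => |(d x).S x m| ^ K)) := by rw [h6]; ring
        _ ≤ 2 * (1 / 2 : ℝ) ^ K * (2 * Real.exp (4 * (t ^ 2 * (d x).V x))) := by gcongr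
        _ ≤ 2 * (1 / 2 : ℝ) ^ K * (2 * Real.exp (4 * s')) := by gcongr
        _ = _ := by ring
    have a5 : 2 * ((K : ℝ) + 1) * (x : ℝ) ^ (2 * K) / (N x : ℝ) ≤ 2 * (K + 1) / x := by
      have h9 : ((x : ℝ)) ^ (2 * K + 1) ≤ (N x : ℝ) := by exact_mod_cast g4
      rw [div_le_div_iff₀ (by exact_mod_cast hN0) (by linarith)]
      calc 2 * ((K : ℝ) + 1) * (x : ℝ) ^ (2 * K) * x = 2 * (K + 1) * (x : ℝ) ^ (2 * K + 1) := by
            rw [pow_succ]; ring
        _ ≤ _ := by gcongr
    have a6 : 2 * |t| ^ 3 * (d x).V x = 2 * |t| * (t ^ 2 * (d x).V x) := by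
      rw [← sq_abs t]
      ring
    rw [a6] at a2
    rw [dist_zero_right]
    have e3 : avg (N x) (fun m => Complex.exp ((t * (d x).S x m : ℝ) * Complex.I)) -
        Complex.exp (-((t ^ 2 * (d x).V x / 2 : ℝ) : ℂ)) =
        (avg (N x) (fun m => Complex.exp ((t * (d x).S x m : ℝ) * Complex.I)) -
          avgP (prim x) (fun m => Complex.exp ((t * (d x).S x m : ℝ) * Complex.I))) +
        (avgP (prim x) (fun m => Complex.exp ((t * (d x).S x m : ℝ) * Complex.I)) -
          Complex.exp (-((t ^ 2 * (d x).V x / 2 : ℝ) : ℂ))) := by ring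
    rw [e3]
    refine lt_of_le_of_lt (norm_add_le _ _) ?_
    linarith
  have h := hdiff.add hexp
  rw [zero_add] at h
  refine h.congr fun x => ?_
  ring

section weak

variable {E : Type*} [NormedAddCommGroup E] [InnerProductSpace ℝ E] [FiniteDimensional ℝ E]
  [MeasurableSpace E] [BorelSpace E]

/-- the law of `Y` under the uniform distribution on `1 ≤ m ≤ N` (a point mass if `N = 0`) -/
noncomputable def lawE (N : ℕ) (Y : ℕ → E) : Measure E :=
  if N = 0 then Measure.dirac 0 else
    (N : ENNReal)⁻¹ • ∑ m ∈ Icc 1 N, Measure.dirac (Y m)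

instance (N : ℕ) (Y : ℕ → E) : IsProbabilityMeasure (lawE N Y) := by
  unfold lawE
  split_ifs with h
  · infer_instance
  · constructor
    simp only [Measure.smul_apply, Measure.coe_finset_sum, Finset.sum_apply, measure_univ,
      Finset.sum_const, Nat.card_Icc, Nat.add_sub_cancel, nsmul_eq_mul, mul_one, smul_eq_mul]
    exact ENNReal.inv_mul_cancel (by exact_mod_cast h) (ENNReal.natCast_ne_top N)

lemma integral_lawE {𝕜 : Type*} [RCLike 𝕜] {N : ℕ} (hN : N ≠ 0) (Y : ℕ → E) (f : E → 𝕜)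
    (hf : Continuous f) :
    ∫ z, f z ∂(lawE N Y) = avg N (fun m => f (Y m)) := by
  have hd : ∀ m : ℕ, ∫ z, f z ∂(Measure.dirac (Y m)) = f (Y m) := fun m =>
    integral_dirac (Y m) (f := f)
  unfold lawE avg
  rw [if_neg hN, integral_smul_measure, integral_finsetSum_measure (by
    intro i _
    exact integrable_dirac (by simp))]
  simp only [hd]
  rw [ENNReal.toReal_inv, ENNReal.toReal_natCast, RCLike.real_smul_eq_coe_mul]
  push_cast
  rw [div_eq_inv_mul]

lemma charFun_lawE {N : ℕ} (hN : N ≠ 0) (Y : ℕ → E) (t : E) :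
    charFun (lawE N Y) t =
      avg N (fun m => Complex.exp ((inner ℝ (Y m) t : ℝ) * Complex.I)) := by
  rw [charFun_apply, integral_lawE hN Y (fun z => Complex.exp ((inner ℝ z t : ℝ) * Complex.I))
    (by fun_prop)]

/-- weak convergence from the characteristic functions -/
theorem weak_of_char (N : ℕ → ℕ) (hN : ∀ᶠ x in atTop, N x ≠ 0) (Y : ℕ → ℕ → E)
    (ν : Measure E) [IsProbabilityMeasure ν]
    (h : ∀ t : E, Tendsto (fun x => avg (N x)
      (fun m => Complex.exp ((inner ℝ (Y x m) t : ℝ) * Complex.I))) atTop (𝓝 (charFun ν t)))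
    (f : BoundedContinuousFunction E ℝ) :
    Tendsto (fun x => avg (N x) (fun m => f (Y x m))) atTop (𝓝 (∫ z, f z ∂ν)) := by
  let μ : ℕ → ProbabilityMeasure E := fun x => ⟨lawE (N x) (Y x), inferInstance⟩
  let ν' : ProbabilityMeasure E := ⟨ν, inferInstance⟩
  have h1 : Tendsto μ atTop (𝓝 ν') := by
    rw [ProbabilityMeasure.tendsto_iff_tendsto_charFun]
    intro t
    refine (h t).congr' ?_
    filter_upwards [hN] with x hx
    exact (charFun_lawE hx (Y x) t).symm
  have h2 := (ProbabilityMeasure.tendsto_iff_forall_integral_tendsto.1 h1) f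
  refine h2.congr' ?_
  filter_upwards [hN] with x hx
  exact integral_lawE hx (Y x) f f.continuous

end weak

end Pool.Agent.K6.H83.GL
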